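import Pool.Agent.Lib.MP_8a3537_gt.UV.FIN
import Pool.Agent.Lib.MP_8a3537_gt.UV.RES
import Pool.Agent.Lib.MP_8a3537_gt.UV.STK
import Pool.Agent.Lib.MP_8a3537_gt.UV.TAT
import Pool.Agent.Lib.MP_8a3537_gt.UV.EMV
import Pool.Agent.Lib.MP_8a3537_gt.UV.SWP
import Pool.Agent.Lib.MP_8a3537_gt.UV.NIL
import Pool.Agent.Lib.MP_8a3537_gt.UV.IND
import Pool.Agent.Lib.MP_8a3537_gt.UV.TRE
import Pool.Agent.Lib.MP_8a3537_gt.UV.HTR
import Pool.Agent.Lib.MP_8a3537_gt.UV.WAL
import Pool.Agent.Lib.MP_8a3537_gt.UV.LFT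
import Pool.Agent.Lib.MP_8a3537_gt.UV.FLD
import Pool.Agent.Lib.MP_8a3537_gt.UV.PID
import Pool.Agent.Lib.MP_8a3537_gt.UV.LOC
import Pool.Agent.Lib.MP_8a3537_gt.UO.GRP
import Pool.Agent.Lib.MP_8a3537_gt.UO.EMO
import Pool.Agent.Lib.MP_8a3537_gt.UO.TRM
import Pool.Agent.Lib.MP_8a3537_gt.UO.SWO
import Pool.Agent.Lib.MP_8a3537_gt.UO.KER
import Pool.Agent.Lib.MP_8a3537_gt.UO.RED
import Pool.Agent.Lib.MP_8a3537_gt.UO.MOV
import Pool.Agent.Lib.MP_8a3537_gt.UO.END
import Pool.Agent.Lib.MP_8a3537_gt.UO.STP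
import Pool.Agent.Lib.MP_8a3537_gt.UO.IDO
import Pool.Agent.Lib.MP_8a3537_gt.UO.LWA
import Pool.Agent.Lib.MP_8a3537_gt.UO.FNO

/-!
# Unitary nilpotent classes over free edge groups vanish in the `L`-groups

A group `G` acts on a tree `T`, and `v`, `w` are adjacent vertices; `H` is the stabilizer of the
edge `(v, w)`, which is not inverted. `D` is a principal ideal domain with involution, and `D[G]`
has the involution `(∑ r_g g)^* = ∑ r_g^* g⁻¹` (`star`, see `UV/Defs.lean`); `ᴴ` is the conjugate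
transpose. `B_v`, `B_w`, `B` are the sets of the elements which fix `v` and move `w`, which fix `w`
and move `v`, and which map `v` to `w`. (For a generalized free product `G = G_v *_H G_w` acting on
its tree, `B` is empty, as `v` and `w` are in different orbits; for an HNN extension `v` and `w` are
in the same orbit.)

(1) `UF ψ μ χ` is the `ε`-quadratic form `(ψ, 1 + μ^*; 0, χ)` on `D[G]^n ⊕ D[G]^n`, where the entries
of `ψ`, `μ`, `χ` are supported on `B_v`, `B`, `B_w`, and `nu ε a μ b = (μ, ε b; a, μ^*)`, with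
`a = ψ + ε ψ^*`, `b = χ + ε χ^*`, so that the polarization `UF + ε UF^*` is
`(0, 1; ε, 0) (1 + nu ε a μ b)`. These forms with `nu ε a μ b` nilpotent are the forms of Cappell's
group `UNil_i(D[H]; D[B_v], D[B_w])`, `i` even, `ε = (-1) ^ (i / 2)`. `StablyHyperbolic ε Ψ`:
`u^* (Ψ ⊕ h_m) u = h_k + Z - ε Z^*` for some `m`, `k`, `Z` and some invertible `u`, where
`h = (0, 1; 0, 0)`; this means that `Ψ` is zero in `L_i^h(D[G])`.

(2) `d`, `e` are matrices over `D[H]` with `d e = e d = q`, `0 ≠ q ∈ D`, that is `d` is the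
differential of a complex `C : C_1 = D[H]^n → C_0 = D[H]^n` of free modules the homology of which is
killed by `q`; `g` and `f`, supported on `B_v` and `B_w`, are the components in degree `1` of
symmetric maps `C → C^*`, `C^* → C` with values in `D[B_v]`, `D[B_w]`; `(m, m')` is a chain map
`C → C`, supported on `B`; and the map `(m, f; g, m'^*)` of `C ⊕ C^*` is nilpotent up to chain
homotopy. The `1`-dimensional quadratic Poincaré complex (formation) on `C ⊕ C^*` with these
components is given by the Lagrangian `(VA f g m m'; VB ε d)`, that is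
`{(f x + (1 + m) y, (1 + m'^*) x + g y; d^* x, -ε d y)}`, in the hyperbolic `ε`-quadratic form. These
are the classes of `UNil_{i+1}(D[H], D - 0; D[B_v], D[B_w])` (linking forms), mapped to
`L_i(D[G])`, `i` odd, `ε = (-1) ^ ((i - 1) / 2)`. `StablyTrivial`: the sum with a standard Lagrangian
is the image of the standard Lagrangian under a product of elementary isometries (`UO/Defs.lean`);
this means that the class is zero in `L_i^h(D[G])`.
-/

namespace Pool.Agent.Results.MP_8a3537_gt.FreeEdgeGroups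

open Matrix Pool.Agent.Lib.MP8a3537.UV Pool.Agent.Lib.MP8a3537.UO

/-- **Theorem.** Let `D` be a principal ideal domain with involution, and let `G` act on a tree `T`.
Let `v`, `w` be adjacent vertices which are not exchanged by an element of `G`, and suppose that no
element of order two of `G` fixes exactly one of them. Let `H` be the intersection of the
stabilizers of `v` and `w`, and suppose that all finitely generated subgroups of `H` are free. Then
all the unitary nilpotent forms (1) are stably hyperbolic, and all the unitary nilpotent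
Lagrangians (2) are stably trivial. -/
theorem result (D G V : Type) [CommRing D] [IsDomain D] [IsPrincipalIdealRing D] [StarRing D]
    [Group G] [MulAction G V] (T : SimpleGraph V) (v w : V) (hT : T.IsTree)
    (hact : ∀ (g : G) (x y : V), T.Adj x y → T.Adj (g • x) (g • y)) (hvw : T.Adj v w)
    (hinv : ∀ g : G, ¬ (g • v = w ∧ g • w = v))
    (htwo : ∀ g : G, g * g = 1 → (g • v = v ↔ g • w = w))
    (hfree : ∀ K : Subgroup ↥(MulAction.stabilizer G v ⊓ MulAction.stabilizer G w),
      K.FG → IsFreeGroup K)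
    (ε : ℤˣ) (n : ℕ) :
    (∀ ψ μ χ : Matrix (Fin n) (Fin n) (MonoidAlgebra D G),
      SuppIn {g | g • v = v ∧ g • w ≠ w} ψ → SuppIn {g | g • v = w} μ →
      SuppIn {g | g • w = w ∧ g • v ≠ v} χ →
      IsNilpotent (nu ε (ψ + (ε : ℤ) • ψᴴ) μ (χ + (ε : ℤ) • χᴴ)) →
      StablyHyperbolic ε (UF ψ μ χ)) ∧
    (∀ (q : D) (d e : Matrix (Fin n) (Fin n) (MonoidAlgebra D
        ↥(MulAction.stabilizer G v ⊓ MulAction.stabilizer G w)))
      (f g m m' : Matrix (Fin n) (Fin n) (MonoidAlgebra D G)),
      q ≠ 0 → d * e = q • 1 → e * d = q • 1 →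
      SuppIn {g | g • w = w ∧ g • v ≠ v} f → SuppIn {g | g • v = v ∧ g • w ≠ w} g →
      SuppIn {g | g • v = w} m → SuppIn {g | g • v = w} m' →
      ext d * f = -((ε : ℤ) • (ext d * f)ᴴ) → (ext d)ᴴ * g = -((ε : ℤ) • ((ext d)ᴴ * g)ᴴ) →
      ext d * m = m' * ext d →
      (∃ (l : ℕ) (h : Matrix (Fin n ⊕ Fin n) (Fin n ⊕ Fin n) (MonoidAlgebra D G)),
        (fromBlocks m f g m'ᴴ) ^ l = h * fromBlocks (ext d) 0 0 (ext d)ᴴ) →
      StablyTrivial ε (VA f g m m') (VB ε (ext d))) := by
  refine ⟨fun ψ μ χ hψ hμ hχ hnil => ?_,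
    fun q d e f g m m' hq hde hed hf hg hm hm' hdf hdg hdm hnil => ?_⟩
  · have h : SpecFIN :=
      specFin (specIND (specStk specRES) specTat specEmv specSwp specNIL) specTRE specHTR specWAL
        (specPid specLFT (specFld specLFT)) (specLoc specRES)
    exact h.1 D G V T v w hT hact hvw hinv htwo (h.2 D _ hfree) ε n ψ μ χ hψ hμ hχ hnil
  · have h : SpecFNO :=
      specFNO (specIDO (specEMO specGRP) specTRM (specSWO specGRP) (specRED specKER)
        (specMOV specLFT) specEND specSTP specTat) specTRE specLWA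
    exact h D G V T v w hT hact hvw hinv htwo hfree ε n q d e f g m m'
      ⟨hq, hde, hed, hf, hg, hm, hm', hdf, hdg, hdm, hnil⟩

end Pool.Agent.Results.MP_8a3537_gt.FreeEdgeGroups
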