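import Pool.Agent.Lib.MP_8a3537_gt.AM.All
import Pool.Agent.Lib.MP_8a3537_gt.AM.ACW
import Pool.Agent.Lib.MP_8a3537_gt.AM.Final
import Pool.Agent.Lib.MP_8a3537_gt.AM.Reps

/-!
# Signatures of nonsingular forms over group rings depend only on the trace on the normal subgroup

`R` is any ring with involution, `E` any group, `H` a normal subgroup with `E/H` in the class `RC`, `h` an invertible
`ε`-hermitian matrix over `R[E]`.

* `RC G`: every `g ≠ 1` in `G` survives under a homomorphism to a group `K` such that `AC K`: `K` acts on a set `X`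
  with a commensurated subset `M` and on a set `Y` with Foelner sets, and every `q ≠ 1` in `K` has only infinite
  orbits on `Y` or fixes no subset of `X` commensurate with `M` (torsion-free amenable groups: `Y = K`; commensurating
  actions without elliptic elements: `Y` a point).
* `Rep`, `CRep` (`AM/Reps.lean`): `*`-representations of `R[E]` on `ℂ^n`; `*`-homomorphisms to a C*-algebra with a
  bounded functional `ω`, and `Ψ.HasSig c h s`: the sign `S` of `c ψ(h)` exists and has `∑ ω(S_ii) = s`.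
* The theorem: this number depends only on the restriction of the trace `ω ψ` to `R[H]`, for all bounded traces
  of representations on Hilbert spaces (for instance finite dimensional ones, where it is the signature), and the
  functional may also be the extension by zero of a trace on `R[H]`.
-/

namespace Pool.Agent.Results.MP_8a3537_gt.RelativeSignatures

open Pool.Agent.Lib.MP8a3537.SG Pool.Agent.Lib.MP8a3537.TW Pool.Agent.Lib.MP8a3537.AM

theorem result (R E : Type) [Ring R] [StarRing R] [Group E] (H : Subgroup E) [H.Normal] (hH : RC (E ⧸ H))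
    (ι : Type) [Fintype ι] [DecidableEq ι] (h : Matrix ι ι (MonoidAlgebra R E)) (ε : ℤ) (c : ℂ)
    (hc : (ε = 1 ∧ c = 1) ∨ (ε = -1 ∧ c = Complex.I)) (hh : EpsHerm ε h) (hu : IsUnit h)
    (V₁ : Type) [NormedAddCommGroup V₁] [InnerProductSpace ℂ V₁] [CompleteSpace V₁]
    (Ψ₁ : CRep R E (V₁ →L[ℂ] V₁)) (ht : Ψ₁.Tracial) :
    ∃ s : ℂ, Ψ₁.HasSig c h s ∧
      (∀ (V₂ : Type) [NormedAddCommGroup V₂] [InnerProductSpace ℂ V₂] [CompleteSpace V₂]
        (Ψ₂ : CRep R E (V₂ →L[ℂ] V₂)), Ψ₂.Tracial → Ψ₁.AgreeOn H Ψ₂ → Ψ₂.HasSig c h s) ∧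
      (∀ (B : Type) [CStarAlgebra B] (Ψ₂ : CRep R E B), Ψ₁.AgreeOn H Ψ₂ → Ψ₂.ZeroOff H →
        Ψ₂.HasSig c h s) := by
  have hF := final (fun G _ h => rc_rw specWGT G h) all_RA2 all_RB2 all_GTR all_TG2 all_EX2 R E H ι h ε c hc hh
  obtain ⟨s, h1, h2, h3⟩ := (hF.1 hH hu).1 V₁ Ψ₁.hom Ψ₁.ω Ψ₁.starHom ht
  refine ⟨s, h1, ?_, ?_⟩
  · intro V₂ _ _ _ Ψ₂ ht₂ ha
    exact h2 V₂ Ψ₂.hom Ψ₂.ω Ψ₂.starHom ht₂ ha
  · intro B _ Ψ₂ ha hz
    exact h3 B Ψ₂.hom Ψ₂.ω Ψ₂.starHom ha hz

end Pool.Agent.Results.MP_8a3537_gt.RelativeSignatures
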